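import Mathlib
import Pool.Agent.Run7.h572.ST.Multi

/-!
# Regular twists for all characters of all small conductors at once (problem MP_c2a07f_nt)

Let `S` be a finite set of Dirichlet characters, of any moduli `f ≥ 2`, with values in the ring of
integers of a number field `K`, all of the same parity `ε`, nontrivial if `ε = 0`, and pairwise
different as functions on the natural numbers.  Let `T` be at least the sum of `φ(d)` over all `d`
that divide the modulus of a member of `S`, let `p ≥ T + 2 ε` be a prime larger than all the moduli,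
and let `π` be a homomorphism of `𝓞 K` to the algebraic closure of `ZMod p`.  We show that the rows
`(B_{n,χ})`, `χ` in `S`, are linearly independent at `π`, where `n` runs through the even integers in
`[2, T - 2]` if `ε = 0` and through the odd integers in `[3, T]` if `ε = 1`.
Consequently there is an injective map `χ ↦ n` with all `B_{n,χ}` units at `π`.

The case of all primitive characters of conductor `≤ F`: here `T = φ(1) + … + φ(F)` is admissible,
so the condition is satisfied if `F (F + 1) / 2 + 2 ≤ p`.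
-/

open Finset NumberField

namespace Pool.Agent.Results.MP_c2a07f_nt.AllConductors

open Pool.Agent.Run7.h572.ST

section defs

variable {K : Type*} [Field K] {k : Type*} [Field k]

/-- `z` is a unit at `π`: `z = x / y` with `x`, `y` algebraic integers that `π` does not kill -/
def IsUnitAt (π : 𝓞 K →+* k) (z : K) : Prop :=
  ∃ x y : 𝓞 K, π x ≠ 0 ∧ π y ≠ 0 ∧ z * (y : K) = (x : K)

/-- `z` vanishes at `π`: `z = x / y` with `x`, `y` algebraic integers, `π x = 0`, `π y ≠ 0` -/
def VanishesAt (π : 𝓞 K →+* k) (z : K) : Prop :=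
  ∃ x y : 𝓞 K, π x = 0 ∧ π y ≠ 0 ∧ z * (y : K) = (x : K)

/-- the even `n` with `2 ≤ n ≤ T - 2` if `ε = 0`, the odd `n` with `3 ≤ n ≤ T` if `ε = 1` -/
def cols (ε T : ℕ) : Finset ℕ := (Icc 2 T).filter (fun n => n + 2 ≤ T + 2 * ε ∧ Even (n + ε))

end defs

section proof

variable {K : Type*} [Field K] [NumberField K] {k : Type*} [Field k] {p : ℕ}
  [hp : Fact p.Prime] [hk : CharP k p]

omit [NumberField K] in
lemma isUnitAt_of_red {π : 𝓞 K →+* k} {z : K} {r : k} (h : Red π z r) (hr : r ≠ 0) :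
    IsUnitAt π z := by
  obtain ⟨x, y, hy, e, f⟩ := h
  exact ⟨x, y, by rw [← f]; exact mul_ne_zero hr hy, hy, e⟩

omit [NumberField K] in
lemma red_of_vanishesAt {π : 𝓞 K →+* k} {z : K} (h : VanishesAt π z) : Red π z (0 : k) := by
  obtain ⟨x, y, hx, hy, e⟩ := h
  exact ⟨x, y, hy, e, by rw [zero_mul, hx]⟩

lemma sum_range_zmod {N : ℕ} [NeZero N] {M : Type*} [AddCommMonoid M] (g : ZMod N → M) :
    ∑ y ∈ range N, g (y : ZMod N) = ∑ z : ZMod N, g z := by
  refine Finset.sum_bij' (fun y _ => (y : ZMod N)) (fun z _ => z.val) ?_ ?_ ?_ ?_ ?_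
  · intro y _; exact Finset.mem_univ _
  · intro z _; exact Finset.mem_range.mpr (ZMod.val_lt z)
  · intro y hy; exact ZMod.val_cast_of_lt (Finset.mem_range.mp hy)
  · intro z _; exact ZMod.natCast_zmod_val z
  · intro y _; rfl

omit [NumberField K] hp hk in
/-- a homomorphism to a field is injective on `n`-th roots of unity, `n ≠ 0` in the field -/
lemma roots_inj' {π : 𝓞 K →+* k} {n : ℕ} (hn : 0 < n) (hnk : (n : k) ≠ 0) {x y : 𝓞 K}
    (hx : x ^ n = 1) (hy : y ^ n = 1) (h : π x = π y) : x = y := by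
  have hz : (x * y ^ (n - 1)) = 1 := by
    by_contra hne
    have h1 : (x * y ^ (n - 1)) ^ n = 1 := by
      have h0 : (y ^ (n - 1)) ^ n = (y ^ n) ^ (n - 1) := by
        rw [← pow_mul, ← pow_mul, Nat.mul_comm]
      rw [mul_pow, hx, h0, hy, one_pow, one_mul]
    have h2 : ∑ i ∈ range n, (x * y ^ (n - 1)) ^ i = 0 := by
      have h3 := mul_geom_sum (x * y ^ (n - 1)) n
      rw [h1, sub_self] at h3
      exact (mul_eq_zero.mp h3).resolve_left (sub_ne_zero.mpr hne)
    have h4 := congrArg π h2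
    have h5 : π (x * y ^ (n - 1)) = 1 := by
      rw [map_mul, map_pow, h, ← pow_succ']
      have : n - 1 + 1 = n := by omega
      rw [this, ← map_pow, hy, map_one]
    rw [map_sum, map_zero] at h4
    simp only [map_pow, h5, one_pow, Finset.sum_const, Finset.card_range, nsmul_eq_mul,
      mul_one] at h4
    exact hnk h4
  calc x = x * (y ^ (n - 1) * y) := by
        rw [← pow_succ]
        have : n - 1 + 1 = n := by omega
        rw [this, hy, mul_one]
    _ = (x * y ^ (n - 1)) * y := by ring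
    _ = y := by rw [hz, one_mul]

omit [NumberField K] hp hk in
lemma char_pow_totient {f : ℕ} (χ : DirichletCharacter (𝓞 K) f) {z : ZMod f} (hz : IsUnit z) :
    χ z ^ f.totient = 1 := by
  obtain ⟨u, rfl⟩ := hz
  have hu : ((u : ZMod f)) ^ f.totient = 1 := by
    rw [← Units.val_pow_eq_pow_val, ZMod.pow_totient, Units.val_one]
  rw [← map_pow, hu, map_one]

omit [NumberField K] hp in
/-- reduced characters determine the characters, as functions on `ℕ` -/
lemma red_determines {π : 𝓞 K →+* k} {f g : ℕ} (hf : 2 ≤ f) (hfp : f < p) (hg : 2 ≤ g)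
    (hgp : g < p) (χ : DirichletCharacter (𝓞 K) f) (ψ : DirichletCharacter (𝓞 K) g) (m : ℕ)
    (h : π (χ (m : ZMod f)) = π (ψ (m : ZMod g))) : χ (m : ZMod f) = ψ (m : ZMod g) := by
  have hφf : 0 < f.totient := Nat.totient_pos.mpr (by omega)
  have hφg : 0 < g.totient := Nat.totient_pos.mpr (by omega)
  have hφfp : f.totient < p := lt_of_le_of_lt (Nat.totient_le f) hfp
  have hφgp : g.totient < p := lt_of_le_of_lt (Nat.totient_le g) hgp
  by_cases h1 : IsUnit (m : ZMod f)
  · by_cases h2 : IsUnit (m : ZMod g)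
    · have e1 := char_pow_totient χ h1
      have e2 := char_pow_totient ψ h2
      refine roots_inj' (π := π) (n := f.totient * g.totient) (Nat.mul_pos hφf hφg) ?_ ?_ ?_ h
      · push_cast
        exact mul_ne_zero (natk_ne_zero (p := p) hφf hφfp) (natk_ne_zero (p := p) hφg hφgp)
      · rw [pow_mul, e1, one_pow]
      · rw [mul_comm, pow_mul, e2, one_pow]
    · exfalso
      rw [ψ.map_nonunit h2, map_zero] at h
      have e1 := congrArg π (char_pow_totient χ h1)
      rw [map_pow, h, zero_pow hφf.ne', map_one] at e1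
      exact zero_ne_one e1
  · by_cases h2 : IsUnit (m : ZMod g)
    · exfalso
      rw [χ.map_nonunit h1, map_zero] at h
      have e1 := congrArg π (char_pow_totient ψ h2)
      rw [map_pow, ← h, zero_pow hφg.ne', map_one] at e1
      exact zero_ne_one e1
    · rw [χ.map_nonunit h1, ψ.map_nonunit h2]

/-- the reduced character as a homomorphism on `ℕ` -/
def redN (π : 𝓞 K →+* k) (s : Σ f : ℕ, DirichletCharacter (𝓞 K) f) : ℕ →* k :=
  ((π : 𝓞 K →* k).comp s.2.toMonoidHom).comp ((Nat.castRingHom (ZMod s.1) : ℕ →+* ZMod s.1) : ℕ →* ZMod s.1)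

omit [NumberField K] in
lemma redN_apply (π : 𝓞 K →+* k) (s : Σ f : ℕ, DirichletCharacter (𝓞 K) f) (m : ℕ) :
    redN π s m = π (s.2 (m : ZMod s.1)) := rfl

/-- the reduction of `B_{n,χ}` -/
noncomputable def entry (π : 𝓞 K →+* k) (s : Σ f : ℕ, DirichletCharacter (𝓞 K) f) (n : ℕ) : k :=
  (s.1 : k)⁻¹ * ∑ y ∈ range s.1, π (s.2 (y : ZMod s.1)) * ee k s.1 n y

open PowerSeries in
lemma series_step {f : ℕ} (hf : 0 < f) (hfk : (f : k) ≠ 0) (hp3 : 3 ≤ p) (g : ℕ → k) :
    (X : k⟦X⟧) ^ p ∣ (∑ a ∈ range f, C (g a * (f : k)⁻¹) * BS k f a) *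
        Polynomial.aeval (EX k 1) (Polynomial.X ^ f - 1 : Polynomial k) -
      X * Polynomial.aeval (EX k 1)
        (∑ a ∈ range f, Polynomial.C (g a) * Polynomial.X ^ a : Polynomial k) := by
  have e : (∑ a ∈ range f, C (g a * (f : k)⁻¹) * BS k f a) *
        Polynomial.aeval (EX k 1) (Polynomial.X ^ f - 1 : Polynomial k) -
      X * Polynomial.aeval (EX k 1)
        (∑ a ∈ range f, Polynomial.C (g a) * Polynomial.X ^ a : Polynomial k) =
      ∑ a ∈ range f, C (g a * (f : k)⁻¹) *
        ((BS k f a * (EX k f - 1) - C (f : k) * X * EX k a) - BS k f a * (EX k f - EX k 1 ^ f)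
          + C (f : k) * X * (EX k a - EX k 1 ^ a)) := by
    rw [map_sub, map_pow, Polynomial.aeval_X, map_one, map_sum, Finset.sum_mul, Finset.mul_sum,
      ← Finset.sum_sub_distrib]
    refine Finset.sum_congr rfl (fun a _ => ?_)
    have h1 : Polynomial.aeval (EX k 1) (Polynomial.C (g a) * Polynomial.X ^ a : Polynomial k) =
        C (g a) * EX k 1 ^ a := by
      rw [map_mul, map_pow, Polynomial.aeval_X, Polynomial.aeval_C]
      rfl
    have h2 : (C (f : k)⁻¹ : k⟦X⟧) * C (f : k) = 1 := by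
      rw [← map_mul, inv_mul_cancel₀ hfk, map_one]
    rw [h1, map_mul]
    linear_combination (C (g a) * X * EX k 1 ^ a) * h2
  rw [e]
  refine Finset.dvd_sum (fun a _ => Dvd.dvd.mul_left ?_ _)
  refine dvd_add (dvd_sub (BS_mul (p := p) hf hp3 a) (Dvd.dvd.mul_left (EX_pow (p := p) f) _)) ?_
  exact Dvd.dvd.mul_left (EX_pow (p := p) a) _

omit [NumberField K] in
open PowerSeries in
/-- the rank statement over `k` -/
theorem rank_multi (π : 𝓞 K →+* k) (hp3 : 3 ≤ p) (ε : ℕ) (hε : ε ≤ 1)
    (S : Finset (Σ f : ℕ, DirichletCharacter (𝓞 K) f))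
    (hf : ∀ s ∈ S, 2 ≤ s.1 ∧ s.1 < p)
    (hS : ∀ s ∈ S, s.2 (-1) = (-1) ^ ε ∧ (ε = 0 → s.2 ≠ 1))
    (hdist : ∀ s ∈ S, ∀ t ∈ S, (∀ m : ℕ, s.2 (m : ZMod s.1) = t.2 (m : ZMod t.1)) → s = t)
    (T : ℕ) (hT : ∑ d ∈ S.biUnion (fun s => s.1.divisors), d.totient ≤ T) (hTp : T + 2 * ε ≤ p)
    (v : (Σ f : ℕ, DirichletCharacter (𝓞 K) f) → k)
    (hv : ∀ n ∈ cols ε T, ∑ s ∈ S, v s * entry π s n = 0) :
    ∀ s ∈ S, v s = 0 := by
  classical
  rcases S.eq_empty_or_nonempty with hSe | ⟨s0, hs0⟩
  · intro s hs; rw [hSe] at hs; simp at hs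
  set Dv : Finset ℕ := S.biUnion (fun s => s.1.divisors) with hDv
  have hsub : ∀ s ∈ S, s.1.divisors ⊆ Dv := fun s hs =>
    Finset.subset_biUnion_of_mem (fun s : (Σ f : ℕ, DirichletCharacter (𝓞 K) f) => s.1.divisors) hs
  obtain ⟨T0, hT0⟩ : ∃ T0, T0 = ∑ d ∈ Dv, d.totient := ⟨_, rfl⟩
  have hfT : ∀ s ∈ S, s.1 ≤ T0 := by
    intro s hs
    have h1 : ∑ d ∈ s.1.divisors, d.totient = s.1 := Nat.sum_totient s.1
    rw [hT0, ← h1]
    exact Finset.sum_le_sum_of_subset (hsub s hs)
  have hT2 : 2 ≤ T := (hf s0 hs0).1.trans ((hfT s0 hs0).trans (by rw [hT0]; exact hT))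
  set D : Polynomial k := ∏ d ∈ Dv, Polynomial.cyclotomic d k with hD
  have hDmonic : D.Monic := Polynomial.monic_prod_of_monic _ _
    (fun d _ => Polynomial.cyclotomic.monic d k)
  have hDne : D ≠ 0 := hDmonic.ne_zero
  have hDdeg : D.natDegree = T0 := by
    rw [hD, Polynomial.natDegree_prod_of_monic _ _ (fun d _ => Polynomial.cyclotomic.monic d k),
      hT0]
    exact Finset.sum_congr rfl (fun d _ => Polynomial.natDegree_cyclotomic d k)
  set E : (Σ f : ℕ, DirichletCharacter (𝓞 K) f) → Polynomial k :=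
    fun s => ∏ d ∈ Dv \ s.1.divisors, Polynomial.cyclotomic d k with hE
  have hDE : ∀ s ∈ S, D = (Polynomial.X ^ s.1 - 1) * E s := by
    intro s hs
    rw [← Polynomial.prod_cyclotomic_eq_X_pow_sub_one (by have := (hf s hs).1; omega) k, mul_comm,
      hE, hD]
    exact (Finset.prod_sdiff (hsub s hs)).symm
  set g : (Σ f : ℕ, DirichletCharacter (𝓞 K) f) → ℕ → k :=
    fun s m => v s * π (s.2 (m : ZMod s.1)) with hg
  set Ap : (Σ f : ℕ, DirichletCharacter (𝓞 K) f) → Polynomial k :=
    fun s => ∑ a ∈ range s.1, Polynomial.C (g s a) * Polynomial.X ^ a with hAp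
  set F : (Σ f : ℕ, DirichletCharacter (𝓞 K) f) → k⟦X⟧ :=
    fun s => ∑ a ∈ range s.1, C (g s a * (s.1 : k)⁻¹) * BS k s.1 a with hF
  have hg0 : ∀ s ∈ S, g s 0 = 0 := by
    intro s hs
    have hnu : ¬ IsUnit (((0 : ℕ) : ZMod s.1)) := by
      rw [ZMod.isUnit_iff_coprime, Nat.coprime_zero_left]
      have := (hf s hs).1; omega
    simp only [hg]
    rw [s.2.map_nonunit hnu, map_zero, mul_zero]
  -- coefficients of the series
  have hcoef : ∀ s n, coeff n (F s) = v s * entry π s n * ((n.factorial : ℕ) : k)⁻¹ := by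
    intro s n
    simp only [hF, hg, entry, map_sum, coeff_C_mul, BS, coeff_mk, Finset.mul_sum, Finset.sum_mul]
    refine Finset.sum_congr rfl (fun a _ => ?_)
    ring
  have hodd : ∀ s ∈ S, ∀ n, n + 2 ≤ p → Odd (n + ε) → entry π s n = 0 := by
    intro s hs n hn ho
    unfold entry
    rw [parity_zero (p := p) (hf s hs).1 hp3 (fun y => π (s.2 (y : ZMod s.1))) (by
      have hnu : ¬ IsUnit (((0 : ℕ) : ZMod s.1)) := by
        rw [ZMod.isUnit_iff_coprime, Nat.coprime_zero_left]
        have := (hf s hs).1; omega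
      show π (s.2 ((0 : ℕ) : ZMod s.1)) = 0
      rw [s.2.map_nonunit hnu, map_zero]) ε n (by
      intro y hy1 hyN
      show π (s.2 ((s.1 - y : ℕ) : ZMod s.1)) = (-1) ^ ε * π (s.2 (y : ZMod s.1))
      have e1 : ((s.1 - y : ℕ) : ZMod s.1) = -1 * (y : ZMod s.1) := by
        rw [Nat.cast_sub hyN.le, ZMod.natCast_self]; ring
      rw [e1, map_mul, (hS s hs).1, map_mul, map_pow, map_neg, map_one]) hn ho, mul_zero]
  have hzero : ∀ s ∈ S, ε = 0 → entry π s 0 = 0 := by
    intro s hs he
    have hNz : NeZero s.1 := ⟨by have := (hf s hs).1; omega⟩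
    unfold entry
    have h2 : ∀ y, ee k s.1 0 y = 1 := by
      intro y
      simp [ee, EQ]
    simp only [h2, mul_one]
    rw [sum_range_zmod (fun z => π (s.2 z)), ← map_sum,
      MulChar.sum_eq_zero_of_ne_one ((hS s hs).2 he), map_zero, mul_zero]
  obtain ⟨β, hβ⟩ : ∃ β, β = coeff 1 (∑ s ∈ S, F s) := ⟨_, rfl⟩
  have hβ0 : ε = 0 → β = 0 := by
    intro he
    rw [hβ, map_sum]
    refine Finset.sum_eq_zero (fun s hs => ?_)
    rw [hcoef, hodd s hs 1 (by omega) ⟨0, by omega⟩, mul_zero, zero_mul]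
  have hFdvd : (X : k⟦X⟧) ^ (T + 2 * ε - 1) ∣ ∑ s ∈ S, F s - C β * X := by
    rw [X_pow_dvd_iff]
    intro n hn
    rw [map_sub, coeff_C_mul, coeff_X]
    rcases eq_or_ne n 1 with h1n | h1n
    · rw [if_pos h1n, mul_one, h1n, hβ, sub_self]
    rw [if_neg h1n, mul_zero, sub_zero, map_sum]
    simp only [hcoef]
    rw [← Finset.sum_mul]
    have h1 : ∑ s ∈ S, v s * entry π s n = 0 := by
      rcases Nat.even_or_odd (n + ε) with he | ho
      · rcases Nat.eq_zero_or_pos n with hn0 | hn0
        · have hε0 : ε = 0 := by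
            rw [hn0, zero_add] at he
            obtain ⟨c, hc⟩ := he
            omega
          refine Finset.sum_eq_zero (fun s hs => ?_)
          rw [hn0, hzero s hs hε0, mul_zero]
        · refine hv n ?_
          rw [cols, Finset.mem_filter, Finset.mem_Icc]
          obtain ⟨c, hc⟩ := he
          exact ⟨⟨by omega, by omega⟩, by omega, ⟨c, hc⟩⟩
      · refine Finset.sum_eq_zero (fun s hs => ?_)
        rw [hodd s hs n (by omega) ho, mul_zero]
    rw [h1, zero_mul]
  set A : Polynomial k := ∑ s ∈ S, Ap s * E s with hA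
  set B : Polynomial k := A - Polynomial.C β * D with hB
  -- a power of `X` divides `X * B(e)`
  have hXA : (X : k⟦X⟧) ^ (T + 2 * ε) ∣ X * Polynomial.aeval (EX k 1) B := by
    have h1 : (X : k⟦X⟧) ^ p ∣ Polynomial.aeval (EX k 1) D * (∑ s ∈ S, F s) -
        X * Polynomial.aeval (EX k 1) A := by
      have e : Polynomial.aeval (EX k 1) D * (∑ s ∈ S, F s) -
          X * Polynomial.aeval (EX k 1) A =
          ∑ s ∈ S, (F s * Polynomial.aeval (EX k 1) (Polynomial.X ^ s.1 - 1 : Polynomial k) -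
            X * Polynomial.aeval (EX k 1) (Ap s)) * Polynomial.aeval (EX k 1) (E s) := by
        rw [hA, map_sum, Finset.mul_sum, Finset.mul_sum, ← Finset.sum_sub_distrib]
        refine Finset.sum_congr rfl (fun s hs => ?_)
        rw [hDE s hs, map_mul, map_mul]
        ring
      rw [e]
      refine Finset.dvd_sum (fun s hs => Dvd.dvd.mul_right ?_ _)
      exact series_step (p := p) (by have := (hf s hs).1; omega)
        (natk_ne_zero (p := p) (by have := (hf s hs).1; omega) (hf s hs).2) hp3 (g s)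
    have h2 : (X : k⟦X⟧) ∣ Polynomial.aeval (EX k 1) D := by
      rw [hDE s0 hs0, map_mul]
      refine Dvd.dvd.mul_right ?_ _
      rw [X_dvd_iff, map_sub, map_pow, Polynomial.aeval_X, map_one, map_sub, map_pow,
        EX_constantCoeff, one_pow, map_one, sub_self]
    have h3 : (X : k⟦X⟧) ^ (T + 2 * ε) ∣
        Polynomial.aeval (EX k 1) D * (∑ s ∈ S, F s - C β * X) := by
      have : (X : k⟦X⟧) ^ (T + 2 * ε) = X * X ^ (T + 2 * ε - 1) := by
        rw [← pow_succ']; congr 1; omega
      rw [this]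
      exact mul_dvd_mul h2 hFdvd
    have h4 : (X : k⟦X⟧) ^ (T + 2 * ε) ∣ Polynomial.aeval (EX k 1) D * (∑ s ∈ S, F s) -
        X * Polynomial.aeval (EX k 1) A := (pow_dvd_pow X hTp).trans h1
    have h5 := dvd_sub h3 h4
    have e5 : Polynomial.aeval (EX k 1) D * (∑ s ∈ S, F s - C β * X) -
        (Polynomial.aeval (EX k 1) D * (∑ s ∈ S, F s) - X * Polynomial.aeval (EX k 1) A) =
        X * Polynomial.aeval (EX k 1) B := by
      have e6 : Polynomial.aeval (EX k 1) B =
          Polynomial.aeval (EX k 1) A - C β * Polynomial.aeval (EX k 1) D := by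
        rw [hB, map_sub, map_mul, Polynomial.aeval_C]
        rfl
      rw [e6]
      ring
    rwa [e5] at h5
  have hXB : (X : k⟦X⟧) ^ (T + 2 * ε - 1) ∣ Polynomial.aeval (EX k 1) B := by
    have : (X : k⟦X⟧) ^ (T + 2 * ε) = X * X ^ (T + 2 * ε - 1) := by
      rw [← pow_succ']; congr 1; omega
    rw [this] at hXA
    exact (mul_dvd_mul_iff_left (X_ne_zero (R := k))).mp hXA
  -- `A` vanishes at `0`
  have hA0 : A.coeff 0 = 0 := by
    rw [hA, Polynomial.finsetSum_coeff]
    refine Finset.sum_eq_zero (fun s hs => ?_)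
    rw [Polynomial.mul_coeff_zero]
    have h1 : (Ap s).coeff 0 = 0 := by
      simp only [hAp, Polynomial.finsetSum_coeff, Polynomial.coeff_C_mul, Polynomial.coeff_X_pow,
        mul_ite, mul_one, mul_zero]
      rw [Finset.sum_ite_eq, if_pos (by
        rw [Finset.mem_range]; have := (hf s hs).1; omega)]
      exact hg0 s hs
    rw [h1, zero_mul]
  obtain ⟨A', hA'⟩ := Polynomial.X_dvd_iff.mpr hA0
  have hAdeg : A.natDegree ≤ T0 - 1 := by
    rw [hA]
    refine Polynomial.natDegree_sum_le_of_forall_le _ _ (fun s hs => ?_)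
    refine Polynomial.natDegree_mul_le.trans ?_
    have h1 : (Ap s).natDegree ≤ s.1 - 1 := by
      rw [hAp]
      refine Polynomial.natDegree_sum_le_of_forall_le _ _ (fun a ha => ?_)
      rw [Finset.mem_range] at ha
      exact (Polynomial.natDegree_C_mul_X_pow_le _ _).trans (by omega)
    have h2 : s.1 + (E s).natDegree = T0 := by
      have hEm : (E s).Monic := Polynomial.monic_prod_of_monic _ _
        (fun d _ => Polynomial.cyclotomic.monic d k)
      have hXm : (Polynomial.X ^ s.1 - 1 : Polynomial k).Monic :=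
        Polynomial.monic_X_pow_sub_C 1 (by have := (hf s hs).1; omega)
      rw [← hDdeg, hDE s hs, hXm.natDegree_mul hEm]
      congr 1
      exact (Polynomial.natDegree_X_pow_sub_C (n := s.1) (r := (1 : k))).symm
    have h3 := (hf s hs).1
    omega
  have hT0T : T0 ≤ T := by rw [hT0]; exact hT
  have hAz : A = 0 := by
    rcases (show ε = 0 ∨ ε = 1 by omega) with he | he
    swap
    · -- odd characters
      have hBdeg : B.natDegree ≤ T0 := by
        rw [hB]
        refine (Polynomial.natDegree_sub_le _ _).trans (max_le (by omega) ?_)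
        exact (Polynomial.natDegree_C_mul_le _ _).trans (by rw [hDdeg])
      have hBz : B = 0 := by
        by_contra hne
        have h1 := order_le B hne _ hXB
        omega
      have hAD : A = Polynomial.C β * D := sub_eq_zero.mp hBz
      have hβz : β = 0 := by
        by_contra hne
        have h1 : A.natDegree = T0 := by
          rw [hAD, Polynomial.natDegree_C_mul hne, hDdeg]
        have h2 := (hf s0 hs0).1
        have h3 := hfT s0 hs0
        omega
      rw [hAD, hβz, Polynomial.C_0, zero_mul]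
    have hXA' : (X : k⟦X⟧) ^ (T - 1) ∣ Polynomial.aeval (EX k 1) A := by
      have hBA : B = A := by
        rw [hB, hβ0 he, Polynomial.C_0, zero_mul, sub_zero]
      rw [hBA, he] at hXB
      exact hXB
    by_contra hne
    have hA'ne : A' ≠ 0 := by
      rintro rfl; exact hne (by rw [hA', mul_zero])
    have h1 : A.natDegree = A'.natDegree + 1 := by
      rw [hA', Polynomial.natDegree_X_mul hA'ne]
    have h2 : (X : k⟦X⟧) ^ (T - 1) ∣ Polynomial.aeval (EX k 1) A' := by
      rw [hA', map_mul, Polynomial.aeval_X] at hXA'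
      have hu : IsUnit (EX k 1) := by
        rw [PowerSeries.isUnit_iff_constantCoeff, EX_constantCoeff]; exact isUnit_one
      exact (hu.dvd_mul_left).mp hXA'
    have h3 := order_le A' hA'ne (T - 1) h2
    omega
  -- the sum of the periodic functions vanishes
  have hper : ∑ s ∈ S, PowerSeries.mk (g s) = 0 := by
    have h1 : (D : k⟦X⟧) * ∑ s ∈ S, PowerSeries.mk (g s) = 0 := by
      rw [Finset.mul_sum]
      have h2 : ∀ s ∈ S, (D : k⟦X⟧) * PowerSeries.mk (g s) = -((Ap s * E s : Polynomial k) : k⟦X⟧) := by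
        intro s hs
        have h3 := periodic_mul (k := k) (f := s.1) (g s) (by
          intro m
          simp only [hg]
          rw [Nat.cast_add, ZMod.natCast_self, add_zero])
        rw [hDE s hs, Polynomial.coe_mul, mul_comm ((Polynomial.X ^ s.1 - 1 : Polynomial k) : k⟦X⟧),
          mul_assoc, h3, Polynomial.coe_mul]
        ring
      rw [Finset.sum_congr rfl h2, Finset.sum_neg_distrib]
      have h4 : ∑ s ∈ S, ((Ap s * E s : Polynomial k) : k⟦X⟧) = ((A : Polynomial k) : k⟦X⟧) := by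
        rw [hA]
        exact (map_sum (Polynomial.coeToPowerSeries.ringHom (R := k)) _ _).symm
      rw [h4, hAz, Polynomial.coe_zero, neg_zero]
    refine (mul_eq_zero.mp h1).resolve_left ?_
    intro h0
    exact hDne (Polynomial.coe_eq_zero_iff.mp h0)
  -- independence of the reduced characters
  let r : ↥S → (ℕ →* k) := fun s => redN π s.1
  have hr : Function.Injective r := by
    intro s t h
    apply Subtype.ext
    refine hdist s.1 s.2 t.1 t.2 (fun m => ?_)
    have h1 : redN π s.1 m = redN π t.1 m := by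
      have := congrArg (fun f : ℕ →* k => f m) h
      exact this
    rw [redN_apply, redN_apply] at h1
    exact red_determines (p := p) (hf s.1 s.2).1 (hf s.1 s.2).2 (hf t.1 t.2).1 (hf t.1 t.2).2 _ _ m h1
  have hli := (linearIndependent_monoidHom ℕ k).comp r hr
  have hfin := linearIndependent_iff'.mp hli Finset.univ (fun s => v s.1) (by
    funext m
    have h1 := congrArg (coeff m) hper
    rw [map_sum, map_zero] at h1
    simp only [coeff_mk, hg] at h1
    rw [Finset.sum_apply, Pi.zero_apply, ← h1, ← Finset.sum_coe_sort S]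
    rfl)
  intro s hs
  exact hfin ⟨s, hs⟩ (Finset.mem_univ _)

end proof

/-- **Regular twists for all characters of all small conductors at once.** -/
theorem result (p : ℕ) [Fact p.Prime] (K : Type*) [Field K] [NumberField K]
    (π : 𝓞 K →+* AlgebraicClosure (ZMod p)) (ε : ℕ) (hε : ε ≤ 1)
    (S : Finset (Σ f : ℕ, DirichletCharacter (𝓞 K) f))
    (hf : ∀ s ∈ S, 2 ≤ s.1 ∧ s.1 < p)
    (hS : ∀ s ∈ S, s.2 (-1) = (-1) ^ ε ∧ (ε = 0 → s.2 ≠ 1))
    (hdist : ∀ s ∈ S, ∀ t ∈ S, (∀ m : ℕ, s.2 (m : ZMod s.1) = t.2 (m : ZMod t.1)) → s = t)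
    (T : ℕ) (hT : ∑ d ∈ S.biUnion (fun s => s.1.divisors), d.totient ≤ T) (hTp : T + 2 * ε ≤ p) :
    (∀ c : (Σ f : ℕ, DirichletCharacter (𝓞 K) f) → 𝓞 K,
      (∀ n ∈ cols ε T, VanishesAt π (∑ s ∈ S, (c s : K) * genBernoulli s.2 n)) →
      ∀ s ∈ S, π (c s) = 0) ∧
    (∃ τ : (Σ f : ℕ, DirichletCharacter (𝓞 K) f) → ℕ, Set.InjOn τ S ∧
      ∀ s ∈ S, τ s ∈ cols ε T ∧ IsUnitAt π (genBernoulli s.2 (τ s))) ∧
    (∀ C ⊆ S, ∀ B ⊆ cols ε T, (cols ε T).card < C.card + B.card →
      ∃ s ∈ C, ∃ n ∈ B, IsUnitAt π (genBernoulli s.2 n)) := by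
  classical
  rcases S.eq_empty_or_nonempty with hSe | ⟨s0, hs0⟩
  · subst hSe
    refine ⟨fun c _ s hs => by simp at hs, ⟨fun _ => 0, by simp, fun s hs => by simp at hs⟩, ?_⟩
    intro C hC B hB hcard
    have h1 : C = ∅ := Finset.subset_empty.mp hC
    rw [h1, Finset.card_empty, zero_add] at hcard
    exact absurd (Finset.card_le_card hB) (by omega)
  have hp3 : 3 ≤ p := by have := hf s0 hs0; omega
  have hcol : ∀ n ∈ cols ε T, 1 ≤ n ∧ n + 2 ≤ p := by
    intro n hn
    rw [cols, Finset.mem_filter, Finset.mem_Icc] at hn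
    obtain ⟨h1, h2, -⟩ := hn
    omega
  have hred : ∀ s ∈ S, ∀ n ∈ cols ε T, Red π (genBernoulli s.2 n) (entry π s n) := by
    intro s hs n hn
    exact red_genBernoulli (p := p) (by have := (hf s hs).1; omega) (hf s hs).2 s.2 n
      (hcol n hn).1 (hcol n hn).2
  have hrank := rank_multi (p := p) π hp3 ε hε S hf hS hdist T hT hTp
  refine ⟨?_, ?_⟩
  · intro c hc
    refine hrank (fun s => π (c s)) (fun n hn => ?_)
    have h3 : Red π (∑ s ∈ S, (c s : K) * genBernoulli s.2 n)
        (∑ s ∈ S, π (c s) * entry π s n) :=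
      Red.sum _ _ _ (fun s hs => (Red.int _).mul (hred s hs n hn))
    exact h3.unique (red_of_vanishesAt (hc n hn))
  · obtain ⟨τ, hinj, hτ⟩ := matching_of_rank S (cols ε T) (fun s n => entry π s n) hrank
    refine ⟨⟨τ, hinj, fun s hs => ⟨(hτ s hs).1,
      isUnitAt_of_red (hred s hs _ (hτ s hs).1) (hτ s hs).2⟩⟩, ?_⟩
    intro C hC B hB hcard
    by_contra hcon
    push Not at hcon
    have hdisj : Disjoint (C.image τ) B := by
      rw [Finset.disjoint_left]
      intro x hx hxB
      rw [Finset.mem_image] at hx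
      obtain ⟨i, hi, rfl⟩ := hx
      exact hcon i hi (τ i) hxB
        (isUnitAt_of_red (hred i (hC hi) _ (hτ i (hC hi)).1) (hτ i (hC hi)).2)
    have hsub : (C.image τ) ∪ B ⊆ cols ε T := by
      refine Finset.union_subset (fun x hx => ?_) hB
      rw [Finset.mem_image] at hx
      obtain ⟨i, hi, rfl⟩ := hx
      exact (hτ i (hC hi)).1
    have h1 := Finset.card_le_card hsub
    have hCc : (C.image τ).card = C.card :=
      Finset.card_image_of_injOn (hinj.mono (fun x hx => hC hx))
    rw [Finset.card_union_of_disjoint hdisj, hCc] at h1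
    omega

end Pool.Agent.Results.MP_c2a07f_nt.AllConductors
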