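import Mathlib
import Pool.Agent.Run7.K3.Count
import Pool.Agent.Run7.K3.BOne

/-!
# Greenberg's conjecture: one fixed even eigenspace, for a positive proportion of all primes `p`

Let `N = 3`, `χ₋₃` the odd character modulo `3`, `ω` the Teichmüller character modulo `p`, `θ = χ₋₃ ω⁻¹`
(even, primitive modulo `3p`) and `χ = ω⁻¹ θ = χ₋₃ ω⁻²`.  For at least one in two hundred primes `p` the
generalised Bernoulli number `B_{1,χ} = - L_p(0, θ)` is a `p`-adic unit.

Background (known, not formalised): then the `p`-adic `L`-function of `θ` is a unit of the Iwasawa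
algebra, and `X_θ = 0` (`X_θ` is a quotient of a module with this characteristic ideal and without finite
submodules, see also the support statement in the problem file); so Greenberg's conjecture holds for the
eigenspace `θ = χ₋₃ ω⁻¹` and all these primes.

The proof is in `Pool/Agent/Run7/K3`.  The number `B_{1,χ}` is a unit if and only if `p` does not divide
`∑_{k ≤ p/3} 1/k²` (`BOne.lean`).
-/

set_option autoImplicit false

namespace Pool.Agent.Results.MP_c2a07f_nt.EisensteinEigenspace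

open Finset

/-- The odd character modulo `3` (the quadratic character of `ℚ(√-3)`). -/
def chi (m : ℕ) : ℤ := if m % 3 = 1 then 1 else if m % 3 = 2 then -1 else 0

/-- `ω` is the Teichmüller character modulo `p`: `ω(a) ≡ a` modulo `p` for all `a`. -/
def IsTeich (p : ℕ) [Fact p.Prime] (ω : DirichletCharacter ℤ_[p] p) : Prop :=
  ∀ a : ℕ, (p : ℤ_[p]) ∣ ω (a : ZMod p) - (a : ℤ_[p])

/-- `B_{1,χ} = 1/(3p) ∑_{a < 3p} a χ(a)` for `χ = χ₋₃ ω⁻²`. -/
noncomputable def bOne (p : ℕ) [Fact p.Prime] (ω : DirichletCharacter ℤ_[p] p) : ℚ_[p] :=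
  (∑ a ∈ range (3 * p), (a : ℚ_[p]) * ((chi a : ℚ_[p]) *
    (((ω⁻¹ ^ 2 : DirichletCharacter ℤ_[p] p) (a : ZMod p) : ℤ_[p]) : ℚ_[p]))) / (3 * (p : ℚ_[p]))

/-- `p` is prime and `B_{1,χ}`, `χ = χ₋₃ ω⁻²`, is a `p`-adic unit. -/
def UnitEigenspace (p : ℕ) : Prop :=
  ∃ _ : Fact p.Prime, ∃ ω : DirichletCharacter ℤ_[p] p, IsTeich p ω ∧ ‖bOne p ω‖ = 1

open Classical in
/-- For all large `x` at least one in two hundred primes `p ≤ x` has the property that `B_{1,χ}`,
`χ = χ₋₃ ω⁻²`, is a `p`-adic unit. -/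
theorem result : ∃ x₀ : ℕ, ∀ x : ℕ, x₀ ≤ x →
    Nat.primeCounting x ≤ 200 * ((range (x + 1)).filter (fun p => UnitEigenspace p)).card := by
  obtain ⟨x₀, h⟩ := Run7.K3.count_good
  refine ⟨x₀, fun x hx => h x hx _ ?_⟩
  intro p hpx hp h5 hg
  rw [mem_filter, mem_range]
  have : Fact p.Prime := ⟨hp⟩
  obtain ⟨ω, hω⟩ := Run7.K3.BO.exists_teich (p := p)
  exact ⟨by omega, ⟨hp⟩, ω, hω, (Run7.K3.BO.bOne_unit h5 hω).mpr hg⟩

end Pool.Agent.Results.MP_c2a07f_nt.EisensteinEigenspace
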