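import Mathlib
import Pool.Agent.Run7.h97.GB.Fin

/-!
# Greenberg's conjecture: half of the eigenspaces in every orbit vanish

Let `N ≥ 1`, `p ∤ N φ(N)` a prime, and let `χ` be an odd Dirichlet character of conductor `N p` with values in the ring
of integers of a number field `K` (for instance `K = ℚ(ζ_d)`, `d` the order of `χ`). The homomorphisms
`π : 𝓞 K → 𝔽̄_p` correspond to the embeddings `σ : K → ℚ̄_p` (if `K = ℚ(ζ_d)`, there are `φ(d) = [K : ℚ]` of them). For
such a `π` the even character `θ_σ = ω χ^σ` has the reduction `a ↦ a π(χ(a))`, and for `θ_σ ≠ 1`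

  `L_p(0, θ_σ) = - B_{1, χ^σ} = - σ((∑ a χ(a)) / (N p))`.

If this value is a unit then the `p`-adic `L`-function of `θ_σ` is a unit, and `X_{θ_σ} = 0` (known, see the support
statement in the problem file). We bound the number of the `π` with `θ_σ ≠ 1` for which it is not a unit; this is
about at most half of all `π`. So in every orbit `{ω χ^σ}` Greenberg's conjecture holds, with `X_θ = 0`, for about half
of the `θ` at least, when `N` is small in comparison with `p`.

Proof. Let `T_c = ∑ ⌊c a / (N p)⌋ χ(a)`. Then `(c - χ(c)⁻¹) B_{1,χ} = T_c`, and the `π` to be counted kill all the `T_c`.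
So `p` to the number of these `π` divides the norm of `T_c`. All the conjugates of `T_c` are at most
`(c + 1) √(N p) (1 + log (N p)) / π`: finite Fourier expansion of `a ↦ 2 a - N p`, whose coefficients are cotangents.
-/

set_option autoImplicit false

open NumberField

namespace Pool.Agent.Results.MP_c2a07f_nt.HalfOfEveryOrbit

/-- The first generalised Bernoulli number `B_{1,χ} = (∑_{a < M} a χ(a)) / M` of a non-trivial primitive character
modulo `M`. -/
noncomputable def bernoulliOne {K : Type} [Field K] {M : ℕ} (χ : DirichletCharacter (𝓞 K) M) : K :=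
  (∑ a ∈ Finset.range M, (a : K) * ((χ (a : ZMod M) : 𝓞 K) : K)) / M

/-- `z` is a unit at the prime `ker π`: it is `x / y` with `x, y ∈ 𝓞 K` which are not in the kernel of `π`. -/
def IsUnitAt {p : ℕ} [Fact p.Prime] {K : Type} [Field K] (π : 𝓞 K →+* AlgebraicClosure (ZMod p))
    (z : K) : Prop :=
  ∃ x y : 𝓞 K, π x ≠ 0 ∧ π y ≠ 0 ∧ z * (y : K) = (x : K)

/-- The reductions `π : 𝓞 K → 𝔽̄_p` for which the character `a ↦ a π(χ(a))` (the reduction of `θ = ω χ^σ`) is not
trivial and `B_{1,χ}` is not a unit. -/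
def nonUnits (p : ℕ) [Fact p.Prime] {K : Type} [Field K] {M : ℕ} (χ : DirichletCharacter (𝓞 K) M) :
    Set (𝓞 K →+* AlgebraicClosure (ZMod p)) :=
  {π | (∃ a : ℕ, a.Coprime M ∧ (a : AlgebraicClosure (ZMod p)) * π (χ (a : ZMod M)) ≠ 1) ∧
    ¬ IsUnitAt π (bernoulliOne χ)}

/-- (1) There are finitely many reductions; for `K = ℚ(ζ_d)`, `p ∤ d`, there are `[K : ℚ] = φ(d)` of them.
(2) `p ^ r ≤ ((c + 1) √(N p) (1 + log (N p)) / π) ^ [K : ℚ]` for the number `r` of the `nonUnits` and all `c ≥ 2`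
prime to `N p`.
(3) `r ≤ ((1 + δ) / 2 + ε) [K : ℚ]` for all `N ≤ p ^ δ` and large `p`.
(4) For fixed `N` and fixed `[K : ℚ]` one has `2 r ≤ [K : ℚ]` for large `p`. -/
theorem result :
    (∀ (p : ℕ) [Fact p.Prime] (K : Type) [Field K] [NumberField K],
      Finite (𝓞 K →+* AlgebraicClosure (ZMod p)) ∧
      ∀ (d : ℕ) [NeZero d] [IsCyclotomicExtension {d} ℚ K], ¬ p ∣ d →
        Nat.card (𝓞 K →+* AlgebraicClosure (ZMod p)) = d.totient ∧ Module.finrank ℚ K = d.totient) ∧
    (∀ (p : ℕ) [Fact p.Prime] (N : ℕ), 1 ≤ N → ∀ (K : Type) [Field K] [NumberField K]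
      (χ : DirichletCharacter (𝓞 K) (N * p)), χ.IsPrimitive → χ (-1) = -1 →
      ∀ c : ℕ, 2 ≤ c → c.Coprime (N * p) →
        (p : ℝ) ^ (nonUnits p χ).ncard ≤
          ((c + 1) * √((N * p : ℕ) : ℝ) * (1 + Real.log ((N * p : ℕ) : ℝ)) / Real.pi) ^
            (Module.finrank ℚ K)) ∧
    (∀ δ ε : ℝ, 0 ≤ δ → 0 < ε → ∃ P : ℕ, ∀ (p : ℕ) [Fact p.Prime], P ≤ p →
      ∀ N : ℕ, 1 ≤ N → (N : ℝ) ≤ (p : ℝ) ^ δ → ∀ (K : Type) [Field K] [NumberField K]
      (χ : DirichletCharacter (𝓞 K) (N * p)), χ.IsPrimitive → χ (-1) = -1 →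
        ((nonUnits p χ).ncard : ℝ) ≤ ((1 + δ) / 2 + ε) * Module.finrank ℚ K) ∧
    (∀ N n : ℕ, 1 ≤ N → ∃ P : ℕ, ∀ (p : ℕ) [Fact p.Prime], P ≤ p →
      ∀ (K : Type) [Field K] [NumberField K] (χ : DirichletCharacter (𝓞 K) (N * p)),
      Module.finrank ℚ K = n → χ.IsPrimitive → χ (-1) = -1 →
        2 * (nonUnits p χ).ncard ≤ n) := by
  refine ⟨?_, ?_, ?_, ?_⟩
  · intro p _ K _ _
    refine ⟨inferInstance, ?_⟩
    intro d _ _ hpd
    exact ⟨Pool.Agent.Run7.h97.GB.card_homs hpd,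
      IsCyclotomicExtension.finrank K (Polynomial.cyclotomic.irreducible_rat (NeZero.pos d))⟩
  · intro p hp N hN K _ _ χ hχ ho c hc2 hcc
    have hpp : p.Prime := hp.out
    have hNp : 1 < N * p := by
      calc 1 < p := hpp.one_lt
        _ ≤ N * p := Nat.le_mul_of_pos_left p hN
    have : NeZero (N * p) := ⟨by omega⟩
    exact Pool.Agent.Run7.h97.GB.main hχ ho hNp hcc hc2
  · intro δ ε hδ hε
    exact Pool.Agent.Run7.h97.GB.eps δ ε hδ hε
  · intro N n hN
    obtain ⟨P, hP⟩ := Pool.Agent.Run7.h97.GB.fixed N n hN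
    exact ⟨P, fun p _ hPp K _ _ χ hn hχ ho => hP p hPp K χ hn hχ ho⟩

end Pool.Agent.Results.MP_c2a07f_nt.HalfOfEveryOrbit
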