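import Mathlib
import Pool.Agent.Run7.h572.ST.Red

/-!
# Simultaneous regular twists (problem MP_c2a07f_nt)

For a Dirichlet character `χ` modulo `N` with values in the ring of integers of a number field
`K`, the generalized Bernoulli number is `B_{n,χ} = N^(n-1) ∑_{0 ≤ a < N} χ(a) B_n(a/N)`
(`genBernoulli χ n`).  Let `p > N` be a prime and let `π` be a homomorphism of `𝓞 K` to the
algebraic closure of `ZMod p`.  We show that the matrix with rows `(χ, a)`, for the nontrivial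
characters `χ` of a fixed parity `ε` and `1 ≤ a ≤ m`, columns `b`, for `u ≤ b < u + L`, and
entries `B_{n,χ} / n!`, `n = 2 (a + b) + ε`, has linearly independent rows at `π` as soon as
`2 (m + u) + ε + 2 m φ(N) ≤ 2 L + 4 + φ(N)` and `2 (m + u + L) + ε + 1 ≤ p`.  Consequently there
is an injective matching of the rows to the columns all of whose entries are units at `π`.
For `m = 1` and `u = 0` the condition is `φ(N) + ε ≤ 2 L + 2`, and there are as many rows as
columns.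
-/

open Finset NumberField

namespace Pool.Agent.Results.MP_c2a07f_nt.SimultaneousTwists

open Pool.Agent.Run7.h572.ST

section defs

variable {K : Type*} [Field K] {k : Type*} [Field k]

/-- `z` is a unit at `π`: `z = x / y` with `x`, `y` algebraic integers that `π` does not kill -/
def IsUnitAt (π : 𝓞 K →+* k) (z : K) : Prop :=
  ∃ x y : 𝓞 K, π x ≠ 0 ∧ π y ≠ 0 ∧ z * (y : K) = (x : K)

/-- `z` vanishes at `π`: `z = x / y` with `x`, `y` algebraic integers, `π x = 0`, `π y ≠ 0` -/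
def VanishesAt (π : 𝓞 K →+* k) (z : K) : Prop :=
  ∃ x y : 𝓞 K, π x = 0 ∧ π y ≠ 0 ∧ z * (y : K) = (x : K)

end defs

section proof

variable {K : Type*} [Field K] [NumberField K] {k : Type*} [Field k] {p : ℕ}
  [hp : Fact p.Prime] [hk : CharP k p]

omit [NumberField K] in
lemma isUnitAt_of_red {π : 𝓞 K →+* k} {z : K} {r : k} (h : Red π z r) (hr : r ≠ 0) :
    IsUnitAt π z := by
  obtain ⟨x, y, hy, e, f⟩ := h
  exact ⟨x, y, by rw [← f]; exact mul_ne_zero hr hy, hy, e⟩

omit [NumberField K] in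
lemma red_of_vanishesAt {π : 𝓞 K →+* k} {z : K} (h : VanishesAt π z) : Red π z (0 : k) := by
  obtain ⟨x, y, hx, hy, e⟩ := h
  exact ⟨x, y, hy, e, by rw [zero_mul, hx]⟩

lemma sum_range_zmod {N : ℕ} [NeZero N] {M : Type*} [AddCommMonoid M] (g : ZMod N → M) :
    ∑ y ∈ range N, g (y : ZMod N) = ∑ z : ZMod N, g z := by
  refine Finset.sum_bij' (fun y _ => (y : ZMod N)) (fun z _ => z.val) ?_ ?_ ?_ ?_ ?_
  · intro y _; exact Finset.mem_univ _
  · intro z _; exact Finset.mem_range.mpr (ZMod.val_lt z)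
  · intro y hy; exact ZMod.val_cast_of_lt (Finset.mem_range.mp hy)
  · intro z _; exact ZMod.natCast_zmod_val z
  · intro y _; rfl

/-- the entry of the matrix in `k` -/
noncomputable def entry (π : 𝓞 K →+* k) {N : ℕ} (χ : DirichletCharacter (𝓞 K) N) (n : ℕ) : k :=
  ((N : k)⁻¹ * ∑ y ∈ range N, π (χ (y : ZMod N)) * ee k N n y) * ((n.factorial : ℕ) : k)⁻¹

lemma red_entry (π : 𝓞 K →+* k) {N : ℕ} (hN : 0 < N) (hNp : N < p)
    (χ : DirichletCharacter (𝓞 K) N) (n : ℕ) (hn : 1 ≤ n) (hnp : n + 2 ≤ p) :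
    Red π (genBernoulli χ n / (n.factorial : K)) (entry π χ n) := by
  rw [div_eq_mul_inv]
  exact (red_genBernoulli (p := p) hN hNp χ n hn hnp).mul
    (Red.natInv _ (factk_ne_zero (p := p) (by omega)))

lemma isUnitAt_of_entry (π : 𝓞 K →+* k) {N : ℕ} (hN : 0 < N) (hNp : N < p)
    (χ : DirichletCharacter (𝓞 K) N) (n : ℕ) (hn : 1 ≤ n) (hnp : n + 2 ≤ p)
    (h : entry π χ n ≠ 0) : IsUnitAt π (genBernoulli χ n) :=
  isUnitAt_of_red (red_genBernoulli (p := p) hN hNp χ n hn hnp) (left_ne_zero_of_mul h)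

/-- the rank statement over `k` -/
theorem rank_k (π : 𝓞 K →+* k) {N : ℕ} (hN : 2 ≤ N) (hNp : N < p) (ε : ℕ) (hε : ε ≤ 1)
    (S : Finset (DirichletCharacter (𝓞 K) N))
    (hS : ∀ χ ∈ S, χ (-1) = (-1) ^ ε ∧ (ε = 0 → χ ≠ 1)) (m u L : ℕ)
    (hL : 2 * (m + u) + ε + 2 * m * N.totient ≤ 2 * L + 4 + N.totient)
    (hpL : 2 * (m + u + L) + ε + 1 ≤ p)
    (v : DirichletCharacter (𝓞 K) N × ℕ → k)
    (hv : ∀ b ∈ Ico u (u + L), ∑ i ∈ S ×ˢ Icc 1 m, v i * entry π i.1 (2 * (i.2 + b) + ε) = 0) :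
    ∀ i ∈ S ×ˢ Icc 1 m, v i = 0 := by
  classical
  have hNz : NeZero N := ⟨by omega⟩
  have hp3 : 3 ≤ p := by omega
  have hNk : (N : k) ≠ 0 := natk_ne_zero (p := p) (by omega) hNp
  set f : ℕ → ℕ → k := fun a y => ∑ χ ∈ S, v (χ, a) * π (χ (y : ZMod N)) with hf
  have hfsum : ∀ a n, ∑ y ∈ range N, f a y * ee k N n y =
      ∑ χ ∈ S, v (χ, a) * ∑ y ∈ range N, π (χ (y : ZMod N)) * ee k N n y := by
    intro a n
    simp only [hf, Finset.sum_mul, Finset.mul_sum]
    rw [Finset.sum_comm]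
    refine Finset.sum_congr rfl (fun χ _ => Finset.sum_congr rfl (fun y _ => ?_))
    ring
  have hcore := core (k := k) (p := p) hN hNp ε m u L hε hL hpL f ?_ ?_ ?_ ?_
  · -- conclusion from the linear independence of the reduced characters
    rintro ⟨χ, a⟩ hi
    rw [Finset.mem_product] at hi
    have hli := (linearIndependent_monoidHom (ZMod N) k).comp (redChar (N := N) π)
      (redChar_inj (p := p) hN hNp)
    have h1 := linearIndependent_iff'.mp hli S (fun χ => v (χ, a)) (by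
      funext z
      have h2 := hcore a hi.2 z.val (ZMod.val_lt z)
      simp only [hf, ZMod.natCast_zmod_val] at h2
      rw [Finset.sum_apply, Pi.zero_apply]
      simpa [redChar_apply] using h2)
    exact h1 χ hi.1
  · -- support
    intro a y _ hy
    simp only [hf]
    refine Finset.sum_eq_zero (fun χ _ => ?_)
    have hnu : ¬ IsUnit ((y : ZMod N)) := by
      rw [ZMod.isUnit_iff_coprime]
      exact fun h => hy h.symm
    rw [χ.map_nonunit hnu, map_zero, mul_zero]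
  · -- the zeroth moment
    intro he a
    rw [hfsum]
    refine Finset.sum_eq_zero (fun χ hχ => ?_)
    have h1 : ∑ y ∈ range N, π (χ (y : ZMod N)) * ee k N 0 y = 0 := by
      have h2 : ∀ y, ee k N 0 y = 1 := by
        intro y
        simp [ee, EQ]
      simp only [h2, mul_one]
      rw [sum_range_zmod (fun z => π (χ z)), ← map_sum,
        MulChar.sum_eq_zero_of_ne_one ((hS χ hχ).2 he), map_zero]
    rw [h1, mul_zero]
  · -- parity
    intro a n hn ho
    rw [hfsum]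
    refine Finset.sum_eq_zero (fun χ hχ => ?_)
    rw [parity_zero (p := p) hN hp3 (fun y => π (χ (y : ZMod N))) (by
      have hnu : ¬ IsUnit (((0 : ℕ) : ZMod N)) := by
        rw [ZMod.isUnit_iff_coprime, Nat.coprime_zero_left]; omega
      show π (χ ((0 : ℕ) : ZMod N)) = 0
      rw [χ.map_nonunit hnu, map_zero]) ε n (by
      intro y hy1 hyN
      show π (χ ((N - y : ℕ) : ZMod N)) = (-1) ^ ε * π (χ (y : ZMod N))
      have e1 : ((N - y : ℕ) : ZMod N) = -1 * (y : ZMod N) := by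
        rw [Nat.cast_sub hyN.le, ZMod.natCast_self]; ring
      rw [e1, map_mul, (hS χ hχ).1, map_mul, map_pow, map_neg, map_one]) hn ho, mul_zero]
  · -- kernel
    intro b hb
    have h1 := hv b hb
    rw [Finset.sum_product_right] at h1
    have h2 : ∑ a ∈ Icc 1 m, (∑ y ∈ range N, f a y * ee k N (2 * (a + b) + ε) y) *
        (((2 * (a + b) + ε).factorial : ℕ) : k)⁻¹ =
        (N : k) * ∑ a ∈ Icc 1 m, ∑ χ ∈ S, v (χ, a) * entry π χ (2 * (a + b) + ε) := by
      rw [Finset.mul_sum]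
      refine Finset.sum_congr rfl (fun a _ => ?_)
      rw [hfsum, Finset.sum_mul, Finset.mul_sum]
      refine Finset.sum_congr rfl (fun χ _ => ?_)
      unfold entry
      field_simp
    rw [h2, h1, mul_zero]

end proof

/-- **Simultaneous regular twists.** -/
theorem result (N p : ℕ) [Fact p.Prime] (hN : 2 ≤ N) (hNp : N < p)
    (K : Type*) [Field K] [NumberField K] (π : 𝓞 K →+* AlgebraicClosure (ZMod p))
    (ε : ℕ) (hε : ε ≤ 1) (S : Finset (DirichletCharacter (𝓞 K) N))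
    (hS : ∀ χ ∈ S, χ (-1) = (-1) ^ ε ∧ (ε = 0 → χ ≠ 1)) (m u L : ℕ)
    (hL : 2 * (m + u) + ε + 2 * m * N.totient ≤ 2 * L + 4 + N.totient)
    (hpL : 2 * (m + u + L) + ε + 1 ≤ p) :
    (∀ c : DirichletCharacter (𝓞 K) N → ℕ → 𝓞 K,
      (∀ b ∈ Ico u (u + L), VanishesAt π (∑ χ ∈ S, ∑ a ∈ Icc 1 m, (c χ a : K) *
        (genBernoulli χ (2 * (a + b) + ε) / ((2 * (a + b) + ε).factorial : K)))) →
      ∀ χ ∈ S, ∀ a ∈ Icc 1 m, π (c χ a) = 0) ∧
    (∃ τ : DirichletCharacter (𝓞 K) N → ℕ → ℕ,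
      (∀ χ ∈ S, ∀ a ∈ Icc 1 m, τ χ a ∈ Ico u (u + L) ∧
        IsUnitAt π (genBernoulli χ (2 * (a + τ χ a) + ε))) ∧
      (∀ χ ∈ S, ∀ a ∈ Icc 1 m, ∀ χ' ∈ S, ∀ a' ∈ Icc 1 m,
        τ χ a = τ χ' a' → χ = χ' ∧ a = a')) ∧
    (∀ C ⊆ S ×ˢ Icc 1 m, ∀ B ⊆ Ico u (u + L), L < C.card + B.card →
      ∃ c ∈ C, ∃ b ∈ B, IsUnitAt π (genBernoulli c.1 (2 * (c.2 + b) + ε))) := by
  classical
  have hrank := rank_k (p := p) π hN hNp ε hε S hS m u L hL hpL
  refine ⟨?_, ?_⟩
  · intro c hc χ hχ a ha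
    have h1 := hrank (fun i => π (c i.1 i.2)) (by
      intro b hb
      have h2 := hc b hb
      have h3 : Red π (∑ χ ∈ S, ∑ a ∈ Icc 1 m, (c χ a : K) *
          (genBernoulli χ (2 * (a + b) + ε) / ((2 * (a + b) + ε).factorial : K)))
          (∑ χ ∈ S, ∑ a ∈ Icc 1 m, π (c χ a) * entry π χ (2 * (a + b) + ε)) := by
        refine Red.sum _ _ _ (fun χ _ => Red.sum _ _ _ (fun a ha => ?_))
        rw [Finset.mem_Icc] at ha
        rw [Finset.mem_Ico] at hb
        exact (Red.int _).mul (red_entry (p := p) π (by omega) hNp χ _ (by omega) (by omega))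
      rw [Finset.sum_product]
      exact h3.unique (red_of_vanishesAt h2))
    exact h1 (χ, a) (Finset.mem_product.mpr ⟨hχ, ha⟩)
  · obtain ⟨τ, hinj, hτ⟩ := matching_of_rank (S ×ˢ Icc 1 m) (Ico u (u + L))
      (fun i b => entry π i.1 (2 * (i.2 + b) + ε)) hrank
    have hunit : ∀ i ∈ S ×ˢ Icc 1 m, ∀ b ∈ Ico u (u + L),
        entry π i.1 (2 * (i.2 + b) + ε) ≠ 0 →
        IsUnitAt π (genBernoulli i.1 (2 * (i.2 + b) + ε)) := by
      intro i hi b hb h
      rw [Finset.mem_product, Finset.mem_Icc] at hi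
      rw [Finset.mem_Ico] at hb
      exact isUnitAt_of_entry (p := p) π (by omega) hNp _ _ (by omega) (by omega) h
    refine ⟨⟨fun χ a => τ (χ, a), ?_, ?_⟩, ?_⟩
    · intro χ hχ a ha
      have hi : (χ, a) ∈ S ×ˢ Icc 1 m := Finset.mem_product.mpr ⟨hχ, ha⟩
      exact ⟨(hτ _ hi).1, hunit _ hi _ (hτ _ hi).1 (hτ _ hi).2⟩
    · intro χ hχ a ha χ' hχ' a' ha' h
      have hi : (χ, a) ∈ ((S ×ˢ Icc 1 m : Finset _) : Set _) :=
        Finset.mem_coe.mpr (Finset.mem_product.mpr ⟨hχ, ha⟩)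
      have hi' : (χ', a') ∈ ((S ×ˢ Icc 1 m : Finset _) : Set _) :=
        Finset.mem_coe.mpr (Finset.mem_product.mpr ⟨hχ', ha'⟩)
      have h2 := hinj hi hi' h
      exact ⟨congrArg Prod.fst h2, congrArg Prod.snd h2⟩
    · intro C hC B hB hcard
      by_contra hcon
      push Not at hcon
      have hdisj : Disjoint (C.image τ) B := by
        rw [Finset.disjoint_left]
        intro x hx hxB
        rw [Finset.mem_image] at hx
        obtain ⟨i, hi, rfl⟩ := hx
        exact hcon i hi (τ i) hxB (hunit _ (hC hi) _ (hτ i (hC hi)).1 (hτ i (hC hi)).2)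
      have hsub : (C.image τ) ∪ B ⊆ Ico u (u + L) := by
        refine Finset.union_subset (fun x hx => ?_) hB
        rw [Finset.mem_image] at hx
        obtain ⟨i, hi, rfl⟩ := hx
        exact (hτ i (hC hi)).1
      have h1 := Finset.card_le_card hsub
      have hCc : (C.image τ).card = C.card :=
        Finset.card_image_of_injOn (hinj.mono (fun x hx => hC hx))
      rw [Finset.card_union_of_disjoint hdisj, hCc, Nat.card_Ico] at h1
      omega

end Pool.Agent.Results.MP_c2a07f_nt.SimultaneousTwists
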